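import Pool.Agent.SPM.Brun34
import Pool.Agent.SPM.Asm92d
import Pool.Agent.SPA.M20
import Pool.Agent.Helper64.Breadth.Mertens

/-!
# Prime pairs with a small difference: the pure Brun sieve, uniform in the difference (helper34)
-/

set_option autoImplicit false

namespace Pool.Agent.LW34

open Finset Pool.Agent.SPM

/-- the forbidden classes -/
def F (h q : ℕ) : Finset ℕ := if q ∣ h then {0} else {0, q - h % q}

theorem F_lt {h q : ℕ} (hq : q.Prime) : ∀ r ∈ F h q, r < q := by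
  intro r hr
  have hq0 := hq.pos
  unfold F at hr
  split_ifs at hr with hd
  · rw [mem_singleton] at hr
    omega
  · rw [mem_insert, mem_singleton] at hr
    have h1 : 0 < h % q := Nat.pos_of_ne_zero fun h0 => hd (Nat.dvd_of_mod_eq_zero h0)
    rcases hr with rfl | rfl
    · exact hq0
    · omega

theorem F_card {h q : ℕ} (hq : q.Prime) : ((F h q).card : ℝ) = 2 - (if q ∣ h then 1 else 0) := by
  have hq0 := hq.pos
  unfold F
  split_ifs with hd
  · simp
    norm_num
  · have h1 : h % q < q := Nat.mod_lt _ hq0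
    rw [card_insert_of_notMem (by rw [mem_singleton]; omega), card_singleton]
    norm_num

theorem F_card_le {h q : ℕ} : (F h q).card ≤ 2 := by
  unfold F
  split_ifs
  · simp
  · exact (card_insert_le _ _).trans (by simp)

/-- pairs of primes beyond `z` avoid the classes -/
theorem avoid {h q n z : ℕ} (hq : q.Prime) (hqz : q ≤ z) (hn : z < n) (h1 : n.Prime) (h2 : (n + h).Prime) :
    n % q ∉ F h q := by
  intro hr
  have hq1 := hq.one_lt
  have hnq : ¬ q ∣ n := by
    intro hd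
    have := (Nat.prime_dvd_prime_iff_eq hq h1).1 hd
    omega
  have hnh : ¬ q ∣ n + h := by
    intro hd
    have := (Nat.prime_dvd_prime_iff_eq hq h2).1 hd
    omega
  unfold F at hr
  split_ifs at hr with hd
  · rw [mem_singleton] at hr
    exact hnq (Nat.dvd_of_mod_eq_zero hr)
  · rw [mem_insert, mem_singleton] at hr
    rcases hr with hr | hr
    · exact hnq (Nat.dvd_of_mod_eq_zero hr)
    · apply hnh
      have h3 : h % q < q := Nat.mod_lt _ hq.pos
      have h4 : (n + h) % q = 0 := by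
        rw [Nat.add_mod, hr, Nat.sub_add_cancel h3.le, Nat.mod_self]
      exact Nat.dvd_of_mod_eq_zero h4

/-- the sum of `1/q` over the primes dividing `h` -/
theorem sum_dvd {h z : ℕ} {l : ℝ} (hl : 1 ≤ l) (h1 : 1 ≤ h) (hh : Real.log h ≤ l) :
    ∑ q ∈ ((Icc 1 z).filter Nat.Prime).filter (fun q => q ∣ h), (1 : ℝ) / q ≤ Real.log l + 3 := by
  classical
  have hl0 : 0 < l := by linarith
  obtain ⟨m, hm⟩ : ∃ m : ℕ, m = ⌊l⌋₊ := ⟨_, rfl⟩
  have hm1 : 1 ≤ m := by rw [hm]; exact Nat.le_floor (by exact_mod_cast hl)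
  have hml : (m : ℝ) ≤ l := by rw [hm]; exact Nat.floor_le hl0.le
  have hlm : l < m + 1 := by rw [hm]; exact Nat.lt_floor_add_one _
  rw [← sum_filter_add_sum_filter_not (((Icc 1 z).filter Nat.Prime).filter (fun q => q ∣ h)) (fun q => q ≤ m)]
  have hA : ∑ q ∈ (((Icc 1 z).filter Nat.Prime).filter (fun q => q ∣ h)).filter (fun q => q ≤ m), (1 : ℝ) / q ≤
      1 + Real.log l := by
    have h2 : ∑ q ∈ (((Icc 1 z).filter Nat.Prime).filter (fun q => q ∣ h)).filter (fun q => q ≤ m), (1 : ℝ) / q ≤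
        ∑ q ∈ Icc 1 m, (1 : ℝ) / q := by
      apply sum_le_sum_of_subset_of_nonneg
      · intro q hq
        rw [mem_filter, mem_filter, mem_filter, mem_Icc] at hq
        rw [mem_Icc]
        exact ⟨hq.1.1.1.1, hq.2⟩
      · intro q _ _
        positivity
    rw [sum_inv_Icc] at h2
    have h3 : ((harmonic m : ℚ) : ℝ) ≤ 1 + Real.log m := by exact_mod_cast harmonic_le_one_add_log m
    have h4 : Real.log m ≤ Real.log l := Real.log_le_log (by exact_mod_cast hm1) hml
    linarith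
  have hB : ∑ q ∈ (((Icc 1 z).filter Nat.Prime).filter (fun q => q ∣ h)).filter (fun q => ¬ q ≤ m), (1 : ℝ) / q ≤
      2 := by
    obtain ⟨S, hS⟩ : ∃ S, S = (((Icc 1 z).filter Nat.Prime).filter (fun q => q ∣ h)).filter (fun q => ¬ q ≤ m) :=
      ⟨_, rfl⟩
    rw [← hS]
    have hSp : ∀ q ∈ S, q.Prime ∧ q ∣ h ∧ m < q := by
      intro q hq
      rw [hS, mem_filter, mem_filter, mem_filter] at hq
      exact ⟨hq.1.1.2, hq.1.2, not_le.1 hq.2⟩
    have hcard : (2 : ℝ) ^ S.card ≤ h := by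
      have h2 : ∏ q ∈ S, q ∣ h := by
        apply Finset.prod_primes_dvd
        · intro q hq
          exact (hSp q hq).1.prime
        · intro q hq
          exact (hSp q hq).2.1
      have h3 : 2 ^ S.card ≤ ∏ q ∈ S, q := by
        rw [← prod_const]
        exact prod_le_prod' fun q hq => (hSp q hq).1.two_le
      have h4 := h3.trans (Nat.le_of_dvd (by omega) h2)
      exact_mod_cast h4
    have hlog : (S.card : ℝ) * Real.log 2 ≤ l := by
      have h2 := Real.log_le_log (by positivity) hcard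
      rw [Real.log_pow] at h2
      linarith
    have h2 : (S.card : ℝ) ≤ 2 * l := by
      have h3 := Real.log_two_gt_d9
      have h4 : (0 : ℝ) ≤ S.card := Nat.cast_nonneg _
      nlinarith
    have h3 : ∑ q ∈ S, (1 : ℝ) / q ≤ ∑ _q ∈ S, 1 / l := by
      apply sum_le_sum
      intro q hq
      apply one_div_le_one_div_of_le hl0
      have h4 : m + 1 ≤ q := (hSp q hq).2.2
      have h5 : ((m : ℝ) + 1) ≤ q := by exact_mod_cast h4
      linarith
    rw [sum_const, nsmul_eq_mul] at h3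
    refine h3.trans ?_
    rw [mul_one_div, div_le_iff₀ hl0]
    exact h2
  linarith

/-- prime pairs, uniform in `h ≤ log x` -/
theorem pairs : ∃ C : ℝ, 0 < C ∧ ∃ x₀ : ℕ, ∀ x h : ℕ, x₀ ≤ x → 1 ≤ h → (h : ℝ) ≤ Real.log x →
    (((Icc 1 x).filter (fun n : ℕ => n.Prime ∧ (n + h).Prime)).card : ℝ) ≤
      C * x * Real.log (Real.log x) ^ 3 / Real.log x ^ 2 := by
  classical
  obtain ⟨C0, hC0, hup⟩ := Pool.Agent.SPA.M20.sum_le
  obtain ⟨C5, hC5⟩ : ∃ C5 : ℝ, C5 = 2 * Real.log 600 + 5 := ⟨_, rfl⟩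
  have hLt : Filter.Tendsto (fun x : ℕ => Real.log (x : ℝ)) Filter.atTop Filter.atTop :=
    Real.tendsto_log_atTop.comp tendsto_natCast_atTop_atTop
  have hlt : Filter.Tendsto (fun x : ℕ => Real.log (Real.log (x : ℝ))) Filter.atTop Filter.atTop :=
    Real.tendsto_log_atTop.comp hLt
  have e1 : ∀ᶠ y : ℝ in Filter.atTop, 600 * Real.log y ≤ y := by
    have h := Real.isLittleO_log_id_atTop.bound (show (0 : ℝ) < 1 / 600 by norm_num)
    filter_upwards [h, Filter.eventually_ge_atTop 1] with y hy hy1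
    rw [Real.norm_eq_abs, Real.norm_eq_abs, id, abs_of_nonneg (by linarith : (0 : ℝ) ≤ y)] at hy
    have := le_abs_self (Real.log y)
    linarith
  have hev : ∀ᶠ x : ℕ in Filter.atTop, 1 ≤ Real.log (Real.log (x : ℝ)) ∧ C0 + 1 ≤ Real.log (Real.log (x : ℝ)) ∧
      600 * Real.log (Real.log (x : ℝ)) ≤ Real.log (x : ℝ) ∧ 48 ≤ Real.log (x : ℝ) ∧ 1 ≤ x := by
    filter_upwards [hlt.eventually_ge_atTop 1, hlt.eventually_ge_atTop (C0 + 1), hLt.eventually e1,
      hLt.eventually_ge_atTop 48, Filter.eventually_ge_atTop 1] with x a1 a2 a3 a4 a5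
    exact ⟨a1, a2, a3, a4, a5⟩
  obtain ⟨x₀, hx₀⟩ := Filter.eventually_atTop.1 hev
  refine ⟨Real.exp C5 + 3, by positivity, x₀, ?_⟩
  intro x h hx h1 hhx
  obtain ⟨a1, a2, a3, a4, a5⟩ := hx₀ x hx
  obtain ⟨L, hL⟩ : ∃ L : ℝ, L = Real.log x := ⟨_, rfl⟩
  obtain ⟨l, hl⟩ : ∃ l : ℝ, l = Real.log L := ⟨_, rfl⟩
  rw [← hL] at hhx a1 a2 a3 a4 ⊢
  rw [← hl] at a1 a2 a3 ⊢
  have hL0 : 0 < L := by linarith
  have hl0 : 0 < l := by linarith
  have hx0 : (0 : ℝ) < x := by exact_mod_cast a5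
  have hxL : Real.exp L = x := by rw [hL, Real.exp_log hx0]
  have hLl : Real.exp l = L := by rw [hl, Real.exp_log hL0]
  have hh0 : (0 : ℝ) < h := by exact_mod_cast h1
  have hlh : Real.log h ≤ l := by rw [hl]; exact Real.log_le_log hh0 hhx
  -- the level
  obtain ⟨v, hv⟩ : ∃ v : ℝ, v = L / (300 * l) := ⟨_, rfl⟩
  have hv2 : 2 ≤ v := by rw [hv, le_div_iff₀ (by positivity)]; linarith
  have hvL : v ≤ L / 2 := by
    rw [hv]
    apply div_le_div_of_nonneg_left hL0.le (by norm_num)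
    linarith
  have hvl : v * (300 * l) = L := by rw [hv]; field_simp
  obtain ⟨z, hz⟩ : ∃ z : ℕ, z = ⌊Real.exp v⌋₊ := ⟨_, rfl⟩
  have hev' : v + 1 ≤ Real.exp v := Real.add_one_le_exp v
  have hz3 : 3 ≤ z := by rw [hz]; exact Nat.le_floor (by push_cast; linarith)
  have hzle : (z : ℝ) ≤ Real.exp v := by rw [hz]; exact Nat.floor_le (Real.exp_pos _).le
  have hzge : Real.exp v < z + 1 := by rw [hz]; exact Nat.lt_floor_add_one _
  have hz0 : (0 : ℝ) < z := by exact_mod_cast (show 0 < z by omega)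
  have hlz : Real.log z ≤ v := by
    rw [Real.log_le_iff_le_exp hz0]
    exact hzle
  have hlz' : v / 2 ≤ Real.log z := by
    rw [Real.le_log_iff_exp_le hz0]
    have h3 : Real.exp v = Real.exp (v / 2) * Real.exp (v / 2) := by
      rw [← Real.exp_add]
      ring_nf
    have h4 : v / 2 + 1 ≤ Real.exp (v / 2) := Real.add_one_le_exp _
    nlinarith
  obtain ⟨P, hP⟩ : ∃ P, P = (Icc 1 z).filter Nat.Prime := ⟨_, rfl⟩
  have hPp : ∀ q ∈ P, q.Prime ∧ q ≤ z := by
    intro q hq
    rw [hP, mem_filter, mem_Icc] at hq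
    exact ⟨hq.2, hq.1.2⟩
  obtain ⟨E, hE⟩ : ∃ E : ℝ, E = ∑ q ∈ P, ((F h q).card : ℝ) / q := ⟨_, rfl⟩
  obtain ⟨S, hS⟩ : ∃ S : ℝ, S = ∑ q ∈ P, ((F h q).card : ℝ) := ⟨_, rfl⟩
  have hEe : E = 2 * ∑ q ∈ P, (1 : ℝ) / q - ∑ q ∈ P.filter (fun q => q ∣ h), (1 : ℝ) / q := by
    rw [hE, mul_sum, sum_filter, ← sum_sub_distrib]
    apply sum_congr rfl
    intro q hq
    rw [F_card (hPp q hq).1]
    split_ifs
    · ring
    · ring
  have hE0 : 0 ≤ E := by rw [hE]; exact sum_nonneg fun q _ => by positivity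
  have hS0 : 0 ≤ S := by rw [hS]; exact sum_nonneg fun q _ => by positivity
  have hd0 : 0 ≤ ∑ q ∈ P.filter (fun q => q ∣ h), (1 : ℝ) / q := sum_nonneg fun q _ => by positivity
  have hsum1 := hup z hz3
  rw [← hP] at hsum1
  have hllz : Real.log (Real.log z) ≤ l := by
    rw [hl]
    apply Real.log_le_log (by linarith)
    linarith
  have hEu : E ≤ 2 * (l + C0) := by rw [hEe]; linarith
  have hsum2 : Real.log (Real.log z) - 1 ≤ ∑ q ∈ P, (1 : ℝ) / q := by
    have h2 := Pool.Agent.Helper64.Breadth.loglog_le hz3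
    have h3 : ∑ q ∈ z.primesBelow, (1 : ℝ) / q ≤ ∑ q ∈ P, (1 : ℝ) / q := by
      apply sum_le_sum_of_subset_of_nonneg
      · intro q hq
        have h4 := Nat.prime_of_mem_primesBelow hq
        have h5 := Nat.lt_of_mem_primesBelow hq
        rw [hP, mem_filter, mem_Icc]
        exact ⟨⟨h4.one_le, h5.le⟩, h4⟩
      · intro q _ _
        positivity
    linarith
  have hllz2 : l - Real.log 600 - Real.log l ≤ Real.log (Real.log z) := by
    have h2 : Real.log (L / (600 * l)) ≤ Real.log (Real.log z) := by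
      apply Real.log_le_log (by positivity)
      refine le_trans (le_of_eq ?_) hlz'
      rw [hv]
      field_simp
      norm_num
    rw [Real.log_div (by positivity) (by positivity), Real.log_mul (by norm_num) (by positivity)] at h2
    rw [← hl] at h2
    linarith
  have hdv := sum_dvd (h := h) (z := z) a1 h1 hlh
  rw [← hP] at hdv
  have hEl : 2 * l - 3 * Real.log l - C5 ≤ E := by
    rw [hEe, hC5]
    linarith
  have hexpE : Real.exp (-E) ≤ Real.exp C5 * (l ^ 3 / L ^ 2) := by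
    have h2 : Real.exp (-E) ≤ Real.exp (C5 + (3 * Real.log l - 2 * l)) := Real.exp_le_exp.2 (by linarith)
    refine h2.trans (le_of_eq ?_)
    rw [Real.exp_add, Real.exp_sub]
    congr 2
    · rw [show (3 : ℝ) * Real.log l = ((3 : ℕ) : ℝ) * Real.log l by norm_num, Real.exp_nat_mul, Real.exp_log hl0]
    · rw [show (2 : ℝ) * l = ((2 : ℕ) : ℝ) * l by norm_num, Real.exp_nat_mul, hLl]
  -- the order of the sieve
  obtain ⟨t, ht⟩ : ∃ t : ℕ, t = ⌈16 * (l + C0)⌉₊ := ⟨_, rfl⟩
  have ht1 : 16 * (l + C0) ≤ t := by rw [ht]; exact Nat.le_ceil _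
  have ht2 : (t : ℝ) < 16 * (l + C0) + 1 := by rw [ht]; exact Nat.ceil_lt_add_one (by positivity)
  have h8E : 8 * E ≤ t := by linarith
  have heps : E ^ (2 * t + 1) / (2 * t + 1).factorial ≤ Real.exp (-(3 * t)) := fin3 hE0 h8E
  have hll3 : 1 ≤ l ^ 3 := one_le_pow₀ a1
  have heps2 : Real.exp (-(3 * (t : ℝ))) ≤ l ^ 3 / L ^ 2 := by
    have h2 : Real.exp (-(3 * (t : ℝ))) ≤ Real.exp (-(2 * l)) := by
      apply Real.exp_le_exp.2
      linarith
    have h3 : Real.exp (-(2 * l)) = 1 / L ^ 2 := by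
      rw [Real.exp_neg, show (2 : ℝ) * l = ((2 : ℕ) : ℝ) * l by norm_num, Real.exp_nat_mul, hLl, one_div]
    rw [h3] at h2
    refine h2.trans ?_
    apply div_le_div_of_nonneg_right hll3 (by positivity)
  have hSz : S ≤ 2 * z := by
    have h2 : S ≤ ∑ _q ∈ P, (2 : ℝ) := by
      rw [hS]
      apply sum_le_sum
      intro q _
      exact_mod_cast F_card_le
    rw [sum_const, nsmul_eq_mul] at h2
    have h3 : P.card ≤ z := by
      rw [hP]
      refine (card_filter_le _ _).trans ?_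
      rw [Nat.card_Icc]
      omega
    have h4 : (P.card : ℝ) ≤ z := by exact_mod_cast h3
    linarith
  have hS1 : 1 + S ≤ Real.exp (v + 2) := by
    have h2 : (3 : ℝ) ≤ Real.exp 2 := by
      have := Real.add_one_le_exp (2 : ℝ)
      linarith
    have h3 : 1 + S ≤ 3 * z := by
      have : (3 : ℝ) ≤ z := by exact_mod_cast hz3
      linarith
    rw [Real.exp_add]
    calc 1 + S ≤ 3 * z := h3
      _ ≤ Real.exp 2 * Real.exp v := by
          apply mul_le_mul h2 hzle hz0.le (Real.exp_pos _).le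
      _ = Real.exp v * Real.exp 2 := mul_comm _ _
  have hthird : (1 + S) ^ (2 * t) ≤ Real.exp (L / 2) := by
    calc (1 + S) ^ (2 * t) ≤ (Real.exp (v + 2)) ^ (2 * t) := pow_le_pow_left₀ (by linarith) hS1 _
      _ = Real.exp ((2 * t : ℕ) * (v + 2)) := by rw [← Real.exp_nat_mul]
      _ ≤ Real.exp (L / 2) := by
          apply Real.exp_le_exp.2
          push_cast
          have h2 : (t : ℝ) ≤ 33 * l := by linarith
          have h3 : 2 * (t : ℝ) * (v + 2) ≤ 2 * (33 * l) * (v + 2) := by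
            apply mul_le_mul_of_nonneg_right _ (by linarith)
            linarith
          have h4 : 2 * (33 * l) * (v + 2) = 66 * (v * l) + 132 * l := by ring
          have h5 : v * l = L / 300 := by linarith
          rw [h4, h5] at h3
          linarith
  have hexp2 : Real.exp (L / 2) ≤ x * (l ^ 3 / L ^ 2) := by
    have h2 : L ^ 2 ≤ Real.exp (L / 2) := by
      have h3 := Real.pow_div_factorial_le_exp (L / 2) (by linarith) 3
      have h6 : ((Nat.factorial 3 : ℕ) : ℝ) = 6 := by norm_num [Nat.factorial]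
      rw [h6] at h3
      have h4 : L ^ 2 ≤ (L / 2) ^ 3 / 6 := by
        have h5 : (L / 2) ^ 3 / 6 = L ^ 2 * (L / 48) := by ring
        rw [h5]
        apply le_mul_of_one_le_right (by positivity)
        linarith
      linarith
    have h3 : Real.exp (L / 2) * Real.exp (L / 2) = x := by
      rw [← Real.exp_add, add_halves, hxL]
    have h4 : Real.exp (L / 2) * L ^ 2 ≤ x := by
      calc Real.exp (L / 2) * L ^ 2 ≤ Real.exp (L / 2) * Real.exp (L / 2) :=
            mul_le_mul_of_nonneg_left h2 (Real.exp_pos _).le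
        _ = x := h3
    calc Real.exp (L / 2) ≤ x / L ^ 2 := by rw [le_div_iff₀ (by positivity)]; exact h4
      _ = x * (1 / L ^ 2) := by ring
      _ ≤ x * (l ^ 3 / L ^ 2) := by
          apply mul_le_mul_of_nonneg_left _ hx0.le
          apply div_le_div_of_nonneg_right hll3 (by positivity)
  -- the count
  have hsub : (Icc 1 x).filter (fun n : ℕ => n.Prime ∧ (n + h).Prime) ⊆
      Icc 1 z ∪ (Icc 1 x).filter (fun k => ∀ q ∈ P, k % q ∉ F h q) := by
    intro n hn
    rw [mem_filter] at hn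
    rw [mem_union]
    rcases Nat.lt_or_ge z n with hzn | hzn
    · right
      rw [mem_filter]
      exact ⟨hn.1, fun q hq => avoid (hPp q hq).1 (hPp q hq).2 hzn hn.2.1 hn.2.2⟩
    · left
      rw [mem_Icc]
      exact ⟨(mem_Icc.1 hn.1).1, hzn⟩
  have hcard := (card_le_card hsub).trans (card_union_le _ _)
  rw [Nat.card_Icc, Nat.add_sub_cancel] at hcard
  have hcard' : (((Icc 1 x).filter (fun n : ℕ => n.Prime ∧ (n + h).Prime)).card : ℝ) ≤
      z + (((Icc 1 x).filter (fun k => ∀ q ∈ P, k % q ∉ F h q)).card : ℝ) := by exact_mod_cast hcard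
  have hbr := Pool.Agent.SPM.B34.brun34 P (fun q hq => (hPp q hq).1) (F h) (fun q hq => F_lt (hPp q hq).1) x t
  rw [← hE, ← hS] at hbr
  have hz2 : (z : ℝ) ≤ Real.exp (L / 2) := hzle.trans (Real.exp_le_exp.2 hvL)
  have hW : (x : ℝ) * (Real.exp (-E) + E ^ (2 * t + 1) / (2 * t + 1).factorial) ≤
      x * (Real.exp C5 * (l ^ 3 / L ^ 2) + l ^ 3 / L ^ 2) := by
    apply mul_le_mul_of_nonneg_left _ hx0.le
    linarith
  have hfin : (Real.exp C5 + 3) * x * l ^ 3 / L ^ 2 =
      x * (Real.exp C5 * (l ^ 3 / L ^ 2) + l ^ 3 / L ^ 2) + x * (l ^ 3 / L ^ 2) + x * (l ^ 3 / L ^ 2) := by ring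
  rw [hfin]
  linarith

end Pool.Agent.LW34
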